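import Pool.Agent.H87.CLG.Targets

/-!
# ACM: ascending chains of stable submodules are finite
-/

set_option autoImplicit false

open MvPolynomial
open scoped commutatorElement

namespace Pool.Agent.H36.CLG

open Pool.Agent.H87.CLG

universe u v

theorem Lm_mono {Λ : Type} {n : ℕ} (r : Mo Λ → Mo Λ → Prop)
    {K L : Submodule (PR Λ) (Fin n → PR Λ)} (h : K ≤ L) (p : Mo Λ × Fin n) :
    Lm r K p ⊆ Lm r L p := by
  rintro a ⟨f, hf, h1⟩
  exact ⟨f, h hf, h1⟩

theorem pf_ACM (h1 : T_HIG) (h2 : T_MOR) (h3 : T_LID) (h4 : T_LEM) (h5 : T_LEQ) : T_ACM := by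
  intro Λ _ n K hK hmono
  by_contra hcon
  push Not at hcon
  obtain ⟨r, hr⟩ := h2 Λ
  have hnext : ∀ N : ℕ, ∃ M, N < M ∧ ¬ K M ≤ K N := by
    intro N
    obtain ⟨j, hj, hne⟩ := hcon N
    have hlt : N < j := by
      rcases hj.eq_or_lt with h | h
      · rw [h] at hne
        exact absurd rfl hne
      · exact h
    exact ⟨j, hlt, fun h => hne (le_antisymm h (hmono hj))⟩
  choose nx hnx1 hnx2 using hnext
  let J : ℕ → ℕ := fun k => Nat.rec 0 (fun _ m => nx m) k
  have hJs : ∀ k, J (k + 1) = nx (J k) := fun k => rfl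
  have hJ : StrictMono J := strictMono_nat_of_lt_succ fun k => by
    rw [hJs]
    exact hnx1 _
  have hp : ∀ k, ∃ p : Mo Λ × Fin n, ¬ Lm r (K (J (k + 1))) p ⊆ Lm r (K (J k)) p := by
    intro k
    by_contra hc
    push Not at hc
    have h6 := h5 Λ n r (K (J k)) (K (J (k + 1))) hr (hmono (hJ (Nat.lt_succ_self k)).le) hc
    rw [hJs] at h6
    exact hnx2 _ h6
  choose p hp using hp
  obtain ⟨c, hc⟩ := Finite.exists_infinite_fiber fun k => (p k).2
  have hfr : ∃ᶠ k in Filter.atTop, (p k).2 = c := by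
    rw [Nat.frequently_atTop_iff_infinite]
    exact Set.infinite_coe_iff.1 hc
  obtain ⟨t, ht, htc⟩ := Filter.extraction_of_frequently_atTop hfr
  obtain ⟨g, hg, hge⟩ := h1 Λ fun k => (p (t k)).1
  have hs : StrictMono fun a => t (g a) := ht.comp hg
  have hps : ∀ a, p (t (g a)) = ((p (t (g a))).1, c) := fun a => Prod.ext rfl (htc _)
  have hA : ∀ a, ∃ A : Ideal ℤ, (A : Set ℤ) = Lm r (K (J (t (g a) + 1))) (p (t (g a))) :=
    fun a => h3 Λ n r _ _
  choose A hA using hA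
  have hlt : ∀ a, A a < A (a + 1) := by
    intro a
    have hle : t (g a) + 1 ≤ t (g (a + 1)) := hs (Nat.lt_succ_self a)
    have e1 : Lm r (K (J (t (g a) + 1))) (p (t (g a))) ⊆
        Lm r (K (J (t (g (a + 1))))) (p (t (g (a + 1)))) := by
      refine (Lm_mono r (hmono (hJ.monotone hle)) _).trans ?_
      rw [hps a, hps (a + 1)]
      exact h4 Λ n r _ _ _ _ hr (hK _) (hge a (a + 1) (Nat.lt_succ_self a))
    have e2 : Lm r (K (J (t (g (a + 1))))) (p (t (g (a + 1)))) ⊆
        Lm r (K (J (t (g (a + 1)) + 1))) (p (t (g (a + 1)))) :=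
      Lm_mono r (hmono (hJ (Nat.lt_succ_self _)).le) _
    rw [← SetLike.coe_ssubset_coe, hA, hA]
    refine ⟨e1.trans e2, fun h6 => ?_⟩
    exact hp (t (g (a + 1))) (h6.trans e1)
  exact not_strictMono_of_wellFoundedGT A (strictMono_nat_of_lt_succ hlt)

end Pool.Agent.H36.CLG
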